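import Mathlib

set_option autoImplicit false

namespace Pool.Agent.Lib.MP_9b38bc_ag

open Cardinal

/-- a finite algebraically independent family of complex numbers over the rationals, of any
finite index type -/
theorem exists_algIndep (ι : Type) [Finite ι] :
    ∃ g : ι → ℂ, AlgebraicIndependent ℚ g := by
  obtain ⟨s, hs⟩ := exists_isTranscendenceBasis ℚ ℂ
  have hinf : ℵ₀ ≤ #s := by
    have h1 : #ℂ = #s := by
      refine IsAlgClosed.cardinal_eq_cardinal_transcendence_basis_of_aleph0_lt' (R := ℚ) _ hs ?_ ?_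
      · simp
      · rw [Cardinal.mk_complex]
        exact Cardinal.aleph0_lt_continuum
    rw [← h1, Cardinal.mk_complex]
    exact Cardinal.aleph0_lt_continuum.le
  have hle : #ι ≤ #s := (Cardinal.lt_aleph0_of_finite ι).le.trans hinf
  obtain ⟨e⟩ := (Cardinal.le_def ι s).mp hle
  exact ⟨_, hs.1.comp e e.injective⟩

/-- transcendence degree count -/
theorem card_le_of_algIndep {ι κ : Type} [Fintype ι] [Fintype κ] (x : ι → ℂ)
    (hx : AlgebraicIndependent ℚ x) (c : κ → ℂ)
    (h : ∀ i, x i ∈ Algebra.adjoin ℚ (Set.range c)) :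
    Fintype.card ι ≤ Fintype.card κ := by
  set S := Algebra.adjoin ℚ (Set.range c) with hS
  let x' : ι → S := fun i => ⟨x i, h i⟩
  have hx' : AlgebraicIndependent ℚ x' := by
    refine AlgebraicIndependent.of_comp S.val ?_
    exact hx
  have h1 := hx'.cardinalMk_le_trdeg
  let f : MvPolynomial κ ℚ →ₐ[ℚ] S :=
    MvPolynomial.aeval (fun k => (⟨c k, Algebra.subset_adjoin ⟨k, rfl⟩⟩ : S))
  have hf : Function.Surjective f := by
    intro y
    obtain ⟨y, hy⟩ := y
    have hy' := hy
    rw [hS, Algebra.adjoin_range_eq_range_aeval] at hy'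
    obtain ⟨p, hp⟩ := hy'
    refine ⟨p, ?_⟩
    apply Subtype.ext
    have : (S.val.comp f) p = MvPolynomial.aeval c p := by
      congr 1
      apply MvPolynomial.algHom_ext
      intro i
      simp [f]
    exact this.trans hp
  have h2 := trdeg_le_of_surjective f hf
  rw [MvPolynomial.trdeg_of_isDomain] at h2
  have h3 := h1.trans h2
  simpa using h3

end Pool.Agent.Lib.MP_9b38bc_ag
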