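import Mathlib
import Pool.Agent.Lib.MP_9b38bc_ag.Count

section

set_option autoImplicit false

namespace Pool.Agent.Lib.MP_9b38bc_ag

/-- selection of a dual system inside a separating finite family of linear functionals -/
theorem select {J V : Type*} [DecidableEq J] [AddCommGroup V] [Module ℂ V]
    (f : J → V →ₗ[ℂ] ℂ) (S : Finset J)
    (h : ∀ v, (∀ j ∈ S, f j v = 0) → v = 0) :
    ∃ S' ⊆ S, ∃ θ : J → V, (∀ i ∈ S', ∀ j ∈ S', f i (θ j) = if i = j then 1 else 0) ∧
      (∀ v, (∀ j ∈ S', f j v = 0) → v = 0) := by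
  classical
  let P : Finset (Finset J) := S.powerset.filter (fun T => ∀ v, (∀ j ∈ T, f j v = 0) → v = 0)
  have hP : P.Nonempty := ⟨S, Finset.mem_filter.mpr ⟨Finset.mem_powerset.mpr subset_rfl, h⟩⟩
  obtain ⟨T, hT, hmin⟩ := Finset.exists_min_image P Finset.card hP
  have hT1 : T ⊆ S := by
    have := (Finset.mem_filter.mp hT).1
    exact Finset.mem_powerset.mp this
  have hT2 : ∀ v, (∀ j ∈ T, f j v = 0) → v = 0 := (Finset.mem_filter.mp hT).2
  have key : ∀ j ∈ T, ∃ v, (∀ i ∈ T, i ≠ j → f i v = 0) ∧ f j v ≠ 0 := by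
    intro j hj
    by_contra hcon
    push Not at hcon
    have : T.erase j ∈ P := by
      refine Finset.mem_filter.mpr ⟨Finset.mem_powerset.mpr ((Finset.erase_subset _ _).trans hT1), ?_⟩
      intro v hv
      have hv' : ∀ i ∈ T, i ≠ j → f i v = 0 := fun i hi hij => hv i (Finset.mem_erase.mpr ⟨hij, hi⟩)
      have hj0 := hcon v hv'
      apply hT2
      intro i hi
      by_cases hij : i = j
      · rw [hij]; exact hj0
      · exact hv' i hi hij
    have h1 := hmin _ this
    have h2 := Finset.card_erase_lt_of_mem hj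
    omega
  choose! v hv1 hv2 using key
  refine ⟨T, hT1, fun j => (f j (v j))⁻¹ • v j, ?_, hT2⟩
  intro i hi j hj
  by_cases hij : i = j
  · subst hij
    simp [hv2 i hi]
  · simp [hij, hv1 j hj i hi hij]

/-- the selected family is at least as large as the dimension -/
theorem select_card {J τ : Type*} [Fintype τ]
    (f : J → (τ → ℂ) →ₗ[ℂ] ℂ) (S : Finset J)
    (h : ∀ v, (∀ j ∈ S, f j v = 0) → v = 0) : Fintype.card τ ≤ S.card := by
  classical
  let g : (τ → ℂ) →ₗ[ℂ] (S → ℂ) := LinearMap.pi (fun j => f j)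
  have hg : Function.Injective g := by
    rw [← LinearMap.ker_eq_bot, LinearMap.ker_eq_bot']
    intro v hv
    apply h
    intro j hj
    have := congrFun hv ⟨j, hj⟩
    simpa [g] using this
  have := LinearMap.finrank_le_finrank_of_injective hg
  simpa using this


/-- linear form with coefficient vector `l` -/
noncomputable def lin {ξ : Type*} [Fintype ξ] (l : ξ → ℂ) (x : ξ → ℂ) : ℂ := ∑ s, l s * x s

/-- bilinear form with coefficient matrix `B` -/
noncomputable def bil {ξ : Type*} [Fintype ξ] (B : ξ → ξ → ℂ) (x x' : ξ → ℂ) : ℂ :=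
  ∑ s, ∑ s', B s s' * x s * x' s'

theorem lin_add {ξ : Type*} [Fintype ξ] (l x x' : ξ → ℂ) :
    lin l (x + x') = lin l x + lin l x' := by
  unfold lin
  rw [← Finset.sum_add_distrib]
  refine Finset.sum_congr rfl fun s _ => ?_
  simp only [Pi.add_apply]; ring

theorem lin_zero {ξ : Type*} [Fintype ξ] (l : ξ → ℂ) : lin l 0 = 0 := by simp [lin]

theorem bil_zero {ξ : Type*} [Fintype ξ] (B : ξ → ξ → ℂ) : bil B 0 0 = 0 := by simp [bil]

theorem bil_quad {ξ : Type*} [Fintype ξ] (B : ξ → ξ → ℂ) (hB : ∀ s s', B s s' = B s' s)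
    (x x' : ξ → ℂ) :
    bil B (x + x') (x + x') = bil B x x + bil B x' x' + 2 * bil B x x' := by
  unfold bil
  have h1 : (∑ s, ∑ s', B s s' * x' s * x s') = ∑ s, ∑ s', B s s' * x s * x' s' := by
    rw [Finset.sum_comm]
    refine Finset.sum_congr rfl fun s _ => Finset.sum_congr rfl fun s' _ => ?_
    rw [hB s' s]; ring
  rw [two_mul]
  nth_rewrite 1 [← h1]
  simp only [← Finset.sum_add_distrib]
  refine Finset.sum_congr rfl fun s _ => Finset.sum_congr rfl fun s' _ => ?_
  simp only [Pi.add_apply]; ring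

/-- the quadratic-in-x, linear-in-(y,w) cubic form -/
noncomputable def cubic {τ κ ξ : Type*} [Fintype τ] [Fintype κ] [Fintype ξ]
    (l : τ → ξ → ℂ) (B : κ → ξ → ξ → ℂ) (y : τ → ℂ) (w : κ → ℂ) (x : ξ → ℂ) : ℂ :=
  ∑ t, y t * (lin (l t) x) ^ 2 + ∑ k, w k * bil (B k) x x

theorem trilinear {J τ κ ξ : Type*} [Fintype J] [Fintype τ] [Fintype κ] [Fintype ξ]
    (L : J → ((τ → ℂ) × (κ → ℂ) × (ξ → ℂ)) →ₗ[ℂ] ℂ) (l : τ → ξ → ℂ)
    (B : κ → ξ → ξ → ℂ) (hB : ∀ k s s', B k s s' = B k s' s)
    (H : ∀ y w x, cubic l B y w x = ∑ j, (L j (y, w, x)) ^ 3)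
    (y : τ → ℂ) (w : κ → ℂ) (y' : τ → ℂ) (x' : ξ → ℂ) (y'' : τ → ℂ) (x'' : ξ → ℂ) :
    3 * ∑ j, L j (y, w, 0) * L j (y', 0, x') * L j (y'', 0, x'') =
      ∑ t, y t * lin (l t) x' * lin (l t) x''
        + ∑ k, w k * bil (B k) x' x'' := by
  have e1 := H (y + y' + y'') w (x' + x'')
  have e2 := H (y + y') w x'
  have e3 := H (y + y'') w x''
  have e4 := H (y' + y'') 0 (x' + x'')
  have e5 := H y w 0
  have e6 := H y' 0 x'
  have e7 := H y'' 0 x''
  have c1 : ∀ j, L j (y + y' + y'', w, x' + x'') =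
      L j (y, w, 0) + L j (y', 0, x') + L j (y'', 0, x'') := by
    intro j
    rw [← map_add, ← map_add]; congr 1; ext <;> simp
  have c2 : ∀ j, L j (y + y', w, x') = L j (y, w, 0) + L j (y', 0, x') := by
    intro j
    rw [← map_add]; congr 1; ext <;> simp
  have c3 : ∀ j, L j (y + y'', w, x'') = L j (y, w, 0) + L j (y'', 0, x'') := by
    intro j
    rw [← map_add]; congr 1; ext <;> simp
  have c4 : ∀ j, L j (y' + y'', 0, x' + x'') = L j (y', 0, x') + L j (y'', 0, x'') := by
    intro j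
    rw [← map_add]; congr 1; ext <;> simp
  have hsum : 6 * ∑ j, L j (y, w, 0) * L j (y', 0, x') * L j (y'', 0, x'') =
      cubic l B (y + y' + y'') w (x' + x'') - cubic l B (y + y') w x' - cubic l B (y + y'') w x''
      - cubic l B (y' + y'') 0 (x' + x'') + cubic l B y w 0 + cubic l B y' 0 x'
      + cubic l B y'' 0 x'' := by
    rw [e1, e2, e3, e4, e5, e6, e7]
    simp only [c1, c2, c3, c4]
    rw [Finset.mul_sum]
    simp only [← Finset.sum_add_distrib, ← Finset.sum_sub_distrib]
    refine Finset.sum_congr rfl fun j _ => ?_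
    ring
  have hexp : cubic l B (y + y' + y'') w (x' + x'') - cubic l B (y + y') w x'
      - cubic l B (y + y'') w x''
      - cubic l B (y' + y'') 0 (x' + x'') + cubic l B y w 0 + cubic l B y' 0 x'
      + cubic l B y'' 0 x'' =
      2 * (∑ t, y t * lin (l t) x' * lin (l t) x''
        + ∑ k, w k * bil (B k) x' x'') := by
    unfold cubic
    simp only [lin_add, fun k => bil_quad (B k) (hB k) x' x'', lin_zero, bil_zero]
    simp only [Pi.add_apply, Pi.zero_apply, zero_mul, mul_zero, Finset.sum_const_zero,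
      ne_eq, OfNat.ofNat_ne_zero, not_false_eq_true, zero_pow, add_zero]
    rw [mul_add, Finset.mul_sum, Finset.mul_sum]
    have g1 : ∀ (a b c d e f g h k : ℂ) , a + b - (c + d) - (e + f) - g + h + k =
        (a - c - e - g + h + k) + (b - d - f) := by
      intros; ring
    rw [g1]
    simp only [← Finset.sum_add_distrib, ← Finset.sum_sub_distrib]
    refine congrArg₂ (· + ·) (Finset.sum_congr rfl fun t _ => ?_)
      (Finset.sum_congr rfl fun k _ => ?_)
    · ring
    · ring
  have h6 := hsum.trans hexp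
  linear_combination (1 / 2 : ℂ) * h6

theorem lin_single {ξ : Type*} [Fintype ξ] [DecidableEq ξ] (l : ξ → ℂ) (s : ξ) :
    lin l (Pi.single s 1) = l s := by
  unfold lin
  rw [Finset.sum_eq_single s]
  · simp
  · intro b _ hb
    simp [Pi.single_eq_of_ne hb]
  · simp

theorem bil_single {ξ : Type*} [Fintype ξ] [DecidableEq ξ] (B : ξ → ξ → ℂ) (s s' : ξ) :
    bil B (Pi.single s 1) (Pi.single s' 1) = B s s' := by
  unfold bil
  rw [Finset.sum_eq_single s]
  · rw [Finset.sum_eq_single s']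
    · simp
    · intro b _ hb
      simp [Pi.single_eq_of_ne hb]
    · simp
  · intro b _ hb
    simp [Pi.single_eq_of_ne hb]
  · simp

/-- correction of a vector inside the `y`-space so that the selected forms vanish -/
theorem corr {J τ κ ξ : Type*} [DecidableEq J] [Fintype τ] [Fintype κ] [Fintype ξ]
    (L : J → ((τ → ℂ) × (κ → ℂ) × (ξ → ℂ)) →ₗ[ℂ] ℂ) (S : Finset J) (θ : J → (τ → ℂ))
    (hθ : ∀ i ∈ S, ∀ j ∈ S, (L i ∘ₗ LinearMap.inl ℂ _ _) (θ j) = if i = j then 1 else 0)
    (w : κ → ℂ) (x : ξ → ℂ) :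
    ∃ y : τ → ℂ, ∀ i ∈ S, L i (y, w, x) = 0 := by
  refine ⟨- ∑ j ∈ S, L j (0, w, x) • θ j, fun i hi => ?_⟩
  have h1 : L i (- ∑ j ∈ S, L j (0, w, x) • θ j, w, x) =
      L i (0, w, x) + (L i ∘ₗ LinearMap.inl ℂ _ _) (- ∑ j ∈ S, L j (0, w, x) • θ j) := by
    rw [LinearMap.comp_apply, LinearMap.inl_apply, ← map_add]
    congr 1; ext <;> simp
  rw [h1, map_neg, map_sum]
  have h2 : ∑ j ∈ S, (L i ∘ₗ LinearMap.inl ℂ _ _) (L j (0, w, x) • θ j) = L i (0, w, x) := by
    rw [Finset.sum_eq_single_of_mem i hi]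
    · rw [map_smul, hθ i hi i hi]; simp
    · intro j hj hji
      rw [map_smul, hθ i hi j hj]; simp [Ne.symm hji]
  rw [h2]; ring

/-- Lemma A: three substitutions -/
theorem lemmaA {J τ κ ξ : Type*} [Fintype J] [Fintype τ] [Fintype κ] [Fintype ξ]
    (L : J → ((τ → ℂ) × (κ → ℂ) × (ξ → ℂ)) →ₗ[ℂ] ℂ) (l : τ → ξ → ℂ)
    (hl : LinearIndependent ℂ (fun t => (fun s s' => l t s * l t s' : ξ → ξ → ℂ)))
    (B : κ → ξ → ξ → ℂ) (hB : ∀ k s s', B k s s' = B k s' s)
    (H : ∀ y w x, cubic l B y w x = ∑ j, (L j (y, w, x)) ^ 3) :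
    ∃ (rest : Finset J) (a b : J → ξ → ℂ) (c : κ → τ → ℂ) (d : κ → J → ℂ),
      rest.card + 3 * Fintype.card τ ≤ Fintype.card J ∧
      ∀ k s s', B k s s' = ∑ t, c k t * (l t s * l t s') + ∑ j ∈ rest, d k j * (a j s * b j s') := by
  classical
  have T := trilinear L l B hB H
  have hind : ∀ v : τ → ℂ, (∀ x' x'', ∑ t, v t * lin (l t) x' * lin (l t) x'' = 0) → v = 0 := by
    intro v hv
    funext t
    refine Fintype.linearIndependent_iff.mp hl v ?_ t
    funext s s'
    have := hv (Pi.single s 1) (Pi.single s' 1)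
    simp only [lin_single] at this
    simp only [Finset.sum_apply, Pi.smul_apply, smul_eq_mul, Pi.zero_apply]
    rw [← this]
    refine Finset.sum_congr rfl fun t _ => ?_
    ring
  let f : J → (τ → ℂ) →ₗ[ℂ] ℂ := fun j => L j ∘ₗ LinearMap.inl ℂ _ _
  have hf : ∀ j v, f j v = L j (v, 0, 0) := fun j v => rfl
  -- step 1
  have h1 : ∀ v, (∀ j ∈ (Finset.univ : Finset J), f j v = 0) → v = 0 := by
    intro v hv
    apply hind
    intro x' x''
    have := T v 0 0 x' 0 x''
    simp only [Pi.zero_apply, zero_mul, Finset.sum_const_zero, add_zero] at this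
    rw [← this, Finset.sum_eq_zero, mul_zero]
    intro j hj
    rw [← hf, hv j hj]; ring
  obtain ⟨S1, -, θ1, hθ1, hS1⟩ := select f _ h1
  have c1 := corr L S1 θ1 hθ1
  -- step 2
  have h2 : ∀ v, (∀ j ∈ (Finset.univ \ S1 : Finset J), f j v = 0) → v = 0 := by
    intro v hv
    apply hind
    intro x' x''
    obtain ⟨y', hy'⟩ := c1 0 x'
    have := T v 0 y' x' 0 x''
    simp only [Pi.zero_apply, zero_mul, Finset.sum_const_zero, add_zero] at this
    rw [← this, Finset.sum_eq_zero, mul_zero]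
    intro j _
    by_cases hj : j ∈ S1
    · rw [hy' j hj]; ring
    · rw [← hf, hv j (by simp [hj])]; ring
  obtain ⟨S2, hS2', θ2, hθ2, hS2⟩ := select f _ h2
  have c2 := corr L S2 θ2 hθ2
  -- step 3
  have h3 : ∀ v, (∀ j ∈ (Finset.univ \ (S1 ∪ S2) : Finset J), f j v = 0) → v = 0 := by
    intro v hv
    apply hind
    intro x' x''
    obtain ⟨y', hy'⟩ := c1 0 x'
    obtain ⟨y'', hy''⟩ := c2 0 x''
    have := T v 0 y' x' y'' x''
    simp only [Pi.zero_apply, zero_mul, Finset.sum_const_zero, add_zero] at this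
    rw [← this, Finset.sum_eq_zero, mul_zero]
    intro j _
    by_cases hj : j ∈ S1
    · rw [hy' j hj]; ring
    · by_cases hj2 : j ∈ S2
      · rw [hy'' j hj2]; ring
      · rw [← hf, hv j (by simp [hj, hj2])]; ring
  obtain ⟨S3, hS3', θ3, hθ3, hS3⟩ := select f _ h3
  have c3 := corr L S3 θ3 hθ3
  have k1 := select_card f S1 hS1
  have k2 := select_card f S2 hS2
  have k3 := select_card f S3 hS3
  have d12 : Disjoint S1 S2 := by
    rw [Finset.disjoint_left]
    intro j hj hj2
    have := hS2' hj2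
    simp [hj] at this
  have d123 : Disjoint (S1 ∪ S2) S3 := by
    rw [Finset.disjoint_left]
    intro j hj hj2
    have := hS3' hj2
    simp only [Finset.mem_sdiff, Finset.mem_univ, true_and] at this
    exact this hj
  choose yw hyw using fun w => c1 w 0
  choose y2 hy2 using fun x => c2 0 x
  choose y3 hy3 using fun x => c3 0 x
  refine ⟨Finset.univ \ (S1 ∪ S2 ∪ S3), fun j s => L j (y2 (Pi.single s 1), 0, Pi.single s 1),
    fun j s => L j (y3 (Pi.single s 1), 0, Pi.single s 1),
    fun k t => - yw (Pi.single k 1) t,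
    fun k j => 3 * L j (yw (Pi.single k 1), Pi.single k 1, 0), ?_, ?_⟩
  · rw [Finset.card_univ_sdiff, Finset.card_union_of_disjoint d123,
      Finset.card_union_of_disjoint d12]
    have hle : (S1 ∪ S2 ∪ S3).card ≤ Fintype.card J := Finset.card_le_univ _
    rw [Finset.card_union_of_disjoint d123,
      Finset.card_union_of_disjoint d12] at hle
    omega
  · intro k s s'
    have := T (yw (Pi.single k 1)) (Pi.single k 1) (y2 (Pi.single s 1)) (Pi.single s 1)
      (y3 (Pi.single s' 1)) (Pi.single s' 1)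
    simp only [lin_single, bil_single] at this
    rw [Finset.sum_eq_single (M := ℂ) (s := (Finset.univ : Finset κ)) k (by
        intro b _ hb
        simp [Pi.single_eq_of_ne hb]) (by simp)] at this
    rw [Pi.single_eq_same, one_mul] at this
    have hrest : ∑ j, L j (yw (Pi.single k 1), Pi.single k 1, 0) *
        L j (y2 (Pi.single s 1), 0, Pi.single s 1) * L j (y3 (Pi.single s' 1), 0, Pi.single s' 1)
        = ∑ j ∈ Finset.univ \ (S1 ∪ S2 ∪ S3), L j (yw (Pi.single k 1), Pi.single k 1, 0) *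
        L j (y2 (Pi.single s 1), 0, Pi.single s 1) *
          L j (y3 (Pi.single s' 1), 0, Pi.single s' 1) := by
      symm
      apply Finset.sum_subset (Finset.subset_univ _)
      intro j _ hj
      simp only [Finset.mem_sdiff, Finset.mem_univ, Finset.mem_union, true_and, not_not] at hj
      rcases hj with (hj | hj) | hj
      · rw [hyw _ j hj]; ring
      · rw [hy2 _ j hj]; ring
      · rw [hy3 _ j hj]; ring
    rw [hrest] at this
    rw [Finset.mul_sum] at this
    have e1 : ∑ t, -yw (Pi.single k 1) t * (l t s * l t s') =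
        - ∑ t, yw (Pi.single k 1) t * l t s * l t s' := by
      rw [← Finset.sum_neg_distrib]
      refine Finset.sum_congr rfl fun t _ => ?_
      ring
    rw [e1]
    have e2 : ∑ j ∈ Finset.univ \ (S1 ∪ S2 ∪ S3), 3 * L j (yw (Pi.single k 1), Pi.single k 1, 0) *
        (L j (y2 (Pi.single s 1), 0, Pi.single s 1) *
          L j (y3 (Pi.single s' 1), 0, Pi.single s' 1)) =
        ∑ j ∈ Finset.univ \ (S1 ∪ S2 ∪ S3), 3 * (L j (yw (Pi.single k 1), Pi.single k 1, 0) *
        L j (y2 (Pi.single s 1), 0, Pi.single s 1) *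
          L j (y3 (Pi.single s' 1), 0, Pi.single s' 1)) := by
      refine Finset.sum_congr rfl fun t _ => ?_
      ring
    rw [e2, this]
    ring

end Pool.Agent.Lib.MP_9b38bc_ag
end

section

set_option autoImplicit false

namespace Pool.Agent.Lib.MP_9b38bc_ag

/-- the variables of one block used in the quadratic forms -/
abbrev Xv (U V A P : Type) : Type := (U ⊕ A) ⊕ (V ⊕ (P × V))

section
variable {U V A P : Type} [Fintype U] [Fintype V] [Fintype A] [Fintype P]

/-- square of a linear form, as a symmetric matrix -/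
def sq {X : Type} (l : X → ℂ) : X → X → ℂ := fun s s' => l s * l s'

/-- product of two linear forms, as a symmetric matrix -/
noncomputable def sym {X : Type} (p q : X → ℂ) : X → X → ℂ :=
  fun s s' => (p s * q s' + q s * p s') / 2

theorem sym_eq {X : Type} (p q : X → ℂ) :
    sym p q = (1 / 2 : ℂ) • (sq (p + q) - sq p - sq q) := by
  funext s s'
  simp only [sym, sq, Pi.smul_apply, Pi.sub_apply, Pi.add_apply, smul_eq_mul]
  ring

/-- The symmetric matrix of the quadratic form `∑ g α β u_α v_β`. -/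
noncomputable def symM (g : U → V → ℂ) : Xv U V A P → Xv U V A P → ℂ
  | Sum.inl (Sum.inl α), Sum.inr (Sum.inl β) => g α β / 2
  | Sum.inr (Sum.inl β), Sum.inl (Sum.inl α) => g α β / 2
  | _, _ => 0

omit [Fintype U] [Fintype V] [Fintype A] [Fintype P] in
theorem symM_symm (g : U → V → ℂ) (s s' : Xv U V A P) : symM g s s' = symM g s' s := by
  rcases s with (s | s) | (s | s) <;> rcases s' with (s' | s') | (s' | s') <;> rfl

/-- The contraction map `Π`. -/
noncomputable def PiM (G : A → P → U → V → ℂ) :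
    (Xv U V A P → Xv U V A P → ℂ) →ₗ[ℂ] (U → V → ℂ) where
  toFun M := fun α β => M (Sum.inl (Sum.inl α)) (Sum.inr (Sum.inl β)) -
    ∑ a, ∑ p, M (Sum.inl (Sum.inr a)) (Sum.inr (Sum.inr (p, β))) * G a p α β
  map_add' M M' := by
    funext α β
    simp only [Pi.add_apply, add_mul, Finset.sum_add_distrib]
    ring
  map_smul' c M := by
    funext α β
    simp only [Pi.smul_apply, smul_eq_mul, RingHom.id_apply, mul_assoc, mul_sub, Finset.mul_sum]

/-- span of the matrices `G` -/
def spanG (G : A → P → U → V → ℂ) : Submodule ℂ (U → V → ℂ) :=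
  Submodule.span ℂ (Set.range (fun k : A × P => G k.1 k.2))

/-- the admissible squares -/
def sqSet (G : A → P → U → V → ℂ) : Set (Xv U V A P → Xv U V A P → ℂ) :=
  {M | ∃ l, M = sq l ∧ PiM G M ∈ spanG G}

theorem sym_mem (G : A → P → U → V → ℂ) (p q : Xv U V A P → ℂ)
    (hp : ∀ s, p (Sum.inr s) = 0) (hq : ∀ s, q (Sum.inl s) = 0)
    (h : (fun α β => p (Sum.inl (Sum.inl α)) * q (Sum.inr (Sum.inl β)) -
      ∑ a, ∑ k, p (Sum.inl (Sum.inr a)) * q (Sum.inr (Sum.inr (k, β))) * G a k α β) ∈ spanG G) :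
    sym p q ∈ Submodule.span ℂ (sqSet G) := by
  rw [sym_eq]
  refine Submodule.smul_mem _ _ (Submodule.sub_mem _ (Submodule.sub_mem _ ?_ ?_) ?_)
  · refine Submodule.subset_span ⟨_, rfl, ?_⟩
    convert h using 1
    funext α β
    simp [PiM, sq, hp, hq]
  · refine Submodule.subset_span ⟨_, rfl, ?_⟩
    convert Submodule.zero_mem _ using 1
    funext α β
    simp [PiM, sq, hp]
  · refine Submodule.subset_span ⟨_, rfl, ?_⟩
    convert Submodule.zero_mem _ using 1
    funext α β
    simp [PiM, sq, hq]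

/-- column linear form -/
def colF (g : U → V → ℂ) (β : V) : Xv U V A P → ℂ
  | Sum.inl (Sum.inl α) => g α β
  | _ => 0

omit [Fintype U] [Fintype V] [Fintype A] [Fintype P] in
theorem sym_add_right {X : Type} (p q r : X → ℂ) : sym p (q + r) = sym p q + sym p r := by
  funext s s'
  simp only [sym, Pi.add_apply]
  ring

omit [Fintype U] [Fintype V] [Fintype A] [Fintype P] in
theorem sym_add_left {X : Type} (p q r : X → ℂ) : sym (p + q) r = sym p r + sym q r := by
  funext s s'
  simp only [sym, Pi.add_apply]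
  ring

omit [Fintype U] [Fintype V] [Fintype A] [Fintype P] in
theorem sym_zero_right {X : Type} (p : X → ℂ) : sym p 0 = 0 := by
  funext s s'
  simp [sym]

omit [Fintype U] [Fintype V] [Fintype A] [Fintype P] in
theorem sym_sum_right {X ι : Type} (S : Finset ι) (p : X → ℂ) (q : ι → X → ℂ) :
    sym p (∑ i ∈ S, q i) = ∑ i ∈ S, sym p (q i) := by
  classical
  induction S using Finset.induction_on with
  | empty => simp [sym_zero_right]
  | insert a S ha ih => rw [Finset.sum_insert ha, Finset.sum_insert ha, sym_add_right, ih]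

open Classical in
theorem symM_mem (G : A → P → U → V → ℂ) (a0 : A) (p0 : P) :
    symM (G a0 p0) ∈ Submodule.span ℂ (sqSet G) := by
  let g := G a0 p0
  let ea : Xv U V A P → ℂ := Pi.single (Sum.inl (Sum.inr a0)) 1
  let ev : V → Xv U V A P → ℂ := fun β => Pi.single (Sum.inr (Sum.inl β)) 1
  let ep : V → Xv U V A P → ℂ := fun β => Pi.single (Sum.inr (Sum.inr (p0, β))) 1
  have hdec0 : symM g = ∑ β, sym (colF g β) (ev β) := by
    funext s s'
    simp only [Finset.sum_apply]
    rcases s with (s | s) | (s | s) <;> rcases s' with (s' | s') | (s' | s') <;>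
      simp [symM, sym, colF, ev, Pi.single_apply, ← Finset.sum_div]
  have hdec : symM g = (∑ β, (sym (colF g β + ea) (ev β + ep β) - sym (colF g β) (ep β)
      - sym ea (ev β))) - sym ea (∑ β, ep β) := by
    rw [sym_sum_right, ← Finset.sum_sub_distrib, hdec0]
    refine Finset.sum_congr rfl fun β _ => ?_
    rw [sym_add_right, sym_add_left, sym_add_left]
    abel
  rw [show G a0 p0 = g from rfl, hdec]
  refine Submodule.sub_mem _ (Submodule.sum_mem _ fun β _ => Submodule.sub_mem _
    (Submodule.sub_mem _ ?_ ?_) ?_) ?_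
  · apply sym_mem
    · intro s; rcases s with s | s <;> simp [colF, ea]
    · intro s; rcases s with s | s <;> simp [ev, ep]
    · convert Submodule.zero_mem _ using 1
      funext α β'
      simp only [Pi.add_apply, Pi.zero_apply]
      rw [Finset.sum_eq_single a0, Finset.sum_eq_single p0]
      · by_cases h : β' = β
        · subst h
          simp [colF, ea, ev, ep, Pi.single_apply, g]
        · simp [colF, ea, ev, ep, Pi.single_apply, h]
      · intro b _ hb
        simp [ev, ep, Pi.single_apply, hb]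
      · simp
      · intro b _ hb
        refine Finset.sum_eq_zero fun p _ => ?_
        simp [colF, ea, Pi.single_apply, hb]
      · simp
  · apply sym_mem
    · intro s; rcases s with s | s <;> simp [colF]
    · intro s; rcases s with s | s <;> simp [ep]
    · convert Submodule.zero_mem _ using 1
      funext α β'
      simp [colF, ep]
  · apply sym_mem
    · intro s; rcases s with s | s <;> simp [ea]
    · intro s; rcases s with s | s <;> simp [ev]
    · convert Submodule.zero_mem _ using 1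
      funext α β'
      simp [ea, ev]
  · apply sym_mem
    · intro s; rcases s with s | s <;> simp [ea]
    · intro s; rcases s with s | s <;> simp [ep]
    · have hN : (fun α β' => ea (Sum.inl (Sum.inl α)) * (∑ β, ep β) (Sum.inr (Sum.inl β')) -
          ∑ a, ∑ k, ea (Sum.inl (Sum.inr a)) * (∑ β, ep β) (Sum.inr (Sum.inr (k, β'))) *
            G a k α β') = - G a0 p0 := by
        funext α β'
        rw [Finset.sum_eq_single a0, Finset.sum_eq_single p0]
        · simp [ea, ep, Pi.single_apply, Finset.sum_apply]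
        · intro b _ hb
          simp [ep, Pi.single_apply, hb, Finset.sum_apply]
        · simp
        · intro b _ hb
          refine Finset.sum_eq_zero fun p _ => ?_
          simp [ea, Pi.single_apply, hb]
        · simp
      rw [hN]
      exact Submodule.neg_mem _ (Submodule.subset_span ⟨(a0, p0), rfl⟩)

/-- the squares used in one block -/
theorem block_exists (G : A → P → U → V → ℂ) :
    ∃ (τ : Type) (_ : Fintype τ) (l : τ → Xv U V A P → ℂ),
      LinearIndependent ℂ (fun t => sq (l t)) ∧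
      (∀ t, PiM G (sq (l t)) ∈ spanG G) ∧
      ∀ a p, ∃ c : τ → ℂ, symM (G a p) = ∑ t, c t • sq (l t) := by
  classical
  obtain ⟨b, hb1, hb2, hb3⟩ := exists_linearIndependent ℂ (sqSet G)
  have hfin : Finite b := hb3.finite
  have : Fintype b := Fintype.ofFinite b
  choose l hl1 hl2 using fun t : b => hb1 t.2
  have hl1' : (fun t : b => sq (l t)) = Subtype.val := by
    funext t; exact (hl1 t).symm
  refine ⟨b, this, l, ?_, ?_, ?_⟩
  · rw [hl1']; exact hb3
  · intro t
    rw [← hl1 t]; exact hl2 t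
  · intro a p
    have h := symM_mem G a p
    rw [← hb2] at h
    have hr : b = Set.range (fun t : b => sq (l t)) := by rw [hl1']; simp
    rw [hr, Submodule.mem_span_range_iff_exists_fun] at h
    obtain ⟨c, hc⟩ := h
    exact ⟨c, hc.symm⟩

/-- lower bound for one block -/
theorem block_lower {J κ τ : Type} [Fintype J] [Fintype κ] [Fintype τ]
    (G : A → P → U → V → ℂ) (g : κ → U → V → ℂ) (l : τ → Xv U V A P → ℂ)
    (hl : LinearIndependent ℂ (fun t => sq (l t)))
    (hl2 : ∀ t, PiM G (sq (l t)) ∈ spanG G)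
    (L : J → ((τ → ℂ) × (κ → ℂ) × (Xv U V A P → ℂ)) →ₗ[ℂ] ℂ)
    (H : ∀ y w x, cubic l (fun k => symM (g k)) y w x = ∑ j, (L j (y, w, x)) ^ 3) :
    ∃ (rest : Finset J) (a b : J → Xv U V A P → ℂ) (c : κ → A × P → ℂ) (d : κ → J → ℂ),
      rest.card + 3 * Fintype.card τ ≤ Fintype.card J ∧
      ∀ k α β, g k α β = ∑ q : A × P, c k q * G q.1 q.2 α β
        + ∑ j ∈ rest, d k j * (a j (Sum.inl (Sum.inl α)) * b j (Sum.inr (Sum.inl β))
          - ∑ x, ∑ p, a j (Sum.inl (Sum.inr x)) * b j (Sum.inr (Sum.inr (p, β))) * G x p α β) := by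
  obtain ⟨rest, a, b, c, d, hcard, hk⟩ := lemmaA L l hl _ (fun k => symM_symm (g k)) H
  have hc : ∀ t, ∃ e : A × P → ℂ, ∑ q, e q • G q.1 q.2 = PiM G (sq (l t)) := by
    intro t
    have := hl2 t
    rw [spanG, Submodule.mem_span_range_iff_exists_fun] at this
    exact this
  choose e he using hc
  refine ⟨rest, a, b, fun k q => 2 * ∑ t, c k t * e t q, fun k j => 2 * d k j, hcard, ?_⟩
  intro k α β
  have hmat : symM (g k) = ∑ t, c k t • sq (l t) + ∑ j ∈ rest, d k j • (fun s s' => a j s * b j s') := by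
    funext s s'
    rw [hk k s s']
    simp [Finset.sum_apply, sq]
  have hPi := congrArg (PiM G) hmat
  rw [map_add, map_sum, map_sum] at hPi
  have h1 : PiM G (symM (g k)) α β = g k α β / 2 := by
    simp [PiM, symM]
  have h2 := congrFun (congrFun hPi α) β
  rw [h1] at h2
  simp only [map_smul, Pi.add_apply, Finset.sum_apply, Pi.smul_apply, smul_eq_mul] at h2
  have h3 : ∑ t, c k t * PiM G (sq (l t)) α β =
      ∑ q : A × P, (∑ t, c k t * e t q) * G q.1 q.2 α β := by
    simp only [Finset.sum_mul]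
    rw [Finset.sum_comm]
    refine Finset.sum_congr rfl fun t _ => ?_
    rw [← he t]
    simp only [Finset.sum_apply, Pi.smul_apply, smul_eq_mul, Finset.mul_sum, mul_assoc]
  rw [h3] at h2
  have h4 : g k α β = 2 * (g k α β / 2) := by ring
  rw [h4, h2, mul_add, Finset.mul_sum, Finset.mul_sum]
  refine congrArg₂ (· + ·) (Finset.sum_congr rfl fun q _ => ?_) (Finset.sum_congr rfl fun j _ => ?_)
  · ring
  · rw [mul_assoc]
    rfl

end

end Pool.Agent.Lib.MP_9b38bc_ag
end

section

set_option autoImplicit false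

namespace Pool.Agent.Lib.MP_9b38bc_ag

section
variable {I N A B : Type} [Fintype I] [DecidableEq I] [Fintype N] [Fintype A] [Fintype B]

/-- row index type of block `i` -/
abbrev Ux (I N : Type) (i : I) : Type := {j : I // j ≠ i} → N

/-- index type of the free parameters -/
abbrev Gx (I N A B : Type) : Type := I × (A × B) × (I → N)

/-- the `i'`-th family of matrices, seen in block `i` -/
def gm (g : Gx I N A B → ℂ) (i i' : I) (k : A × B) : Ux I N i → N → ℂ :=
  fun α β => g (i', k, (Equiv.funSplitAt i N).symm (β, α))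

/-- the matrices of the other blocks, seen in block `i` -/
def Gm (g : Gx I N A B → ℂ) (i : I) (a : A) (p : I × B) : Ux I N i → N → ℂ :=
  if p.1 = i then 0 else gm g i p.1 (a, p.2)

theorem count (g : Gx I N A B → ℂ) (hg : AlgebraicIndependent ℚ g) (i : I)
    {J : Type} (rest : Finset J) (a b : J → Xv (Ux I N i) N A (I × B) → ℂ)
    (c : A × B → A × (I × B) → ℂ) (d : A × B → J → ℂ)
    (h : ∀ k α β, gm g i i k α β = ∑ q : A × (I × B), c k q * Gm g i q.1 q.2 α β
        + ∑ j ∈ rest, d k j * (a j (Sum.inl (Sum.inl α)) * b j (Sum.inr (Sum.inl β))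
          - ∑ x, ∑ p, a j (Sum.inl (Sum.inr x)) * b j (Sum.inr (Sum.inr (p, β)))
            * Gm g i x p α β)) :
    (Fintype.card A * Fintype.card B) * Fintype.card N ^ Fintype.card I ≤
      (Fintype.card A * Fintype.card B) * (Fintype.card A * (Fintype.card I * Fintype.card B))
      + (Fintype.card A * Fintype.card B) * rest.card
      + rest.card * (Fintype.card N ^ (Fintype.card I - 1) + Fintype.card A)
      + rest.card * (Fintype.card N + (Fintype.card I * Fintype.card B) * Fintype.card N) := by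
  classical
  let Θ : Type := ({j : I // j ≠ i} × (A × B) × (I → N)) ⊕ (((A × B) × (A × (I × B))) ⊕
    (((A × B) × rest) ⊕ ((rest × (Ux I N i ⊕ A)) ⊕ (rest × (N ⊕ ((I × B) × N))))))
  let z : Θ → ℂ := fun t => match t with
    | Sum.inl (i', k, j) => g (i'.1, k, j)
    | Sum.inr (Sum.inl (k, q)) => c k q
    | Sum.inr (Sum.inr (Sum.inl (k, j))) => d k j
    | Sum.inr (Sum.inr (Sum.inr (Sum.inl (j, s)))) => a j (Sum.inl s)
    | Sum.inr (Sum.inr (Sum.inr (Sum.inr (j, s)))) => b j (Sum.inr s)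
  set S := Algebra.adjoin ℚ (Set.range z) with hS
  have hz : ∀ t, z t ∈ S := fun t => Algebra.subset_adjoin ⟨t, rfl⟩
  have hG : ∀ x p α β, Gm g i x p α β ∈ S := by
    intro x p α β
    unfold Gm
    by_cases hp : p.1 = i
    · simp [hp, S.zero_mem]
    · simp only [hp, if_false]
      exact hz (Sum.inl (⟨p.1, hp⟩, (x, p.2), _))
  have hmem : ∀ t, g t ∈ S := by
    rintro ⟨i', k, j⟩
    by_cases hi : i' = i
    · subst hi
      have e1 : g (i', k, j) = gm g i' i' k (Equiv.funSplitAt i' N j).2 (Equiv.funSplitAt i' N j).1 := by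
        unfold gm
        rw [Prod.mk.eta, Equiv.symm_apply_apply]
      rw [e1, h]
      refine S.add_mem (S.sum_mem fun q _ => S.mul_mem ?_ (hG _ _ _ _))
        (S.sum_mem fun j hj => S.mul_mem ?_ (S.sub_mem (S.mul_mem ?_ ?_)
        (S.sum_mem fun x _ => S.sum_mem fun p _ => S.mul_mem (S.mul_mem ?_ ?_) (hG _ _ _ _))))
      · exact hz (Sum.inr (Sum.inl (k, q)))
      · exact hz (Sum.inr (Sum.inr (Sum.inl (k, ⟨j, hj⟩))))
      · exact hz (Sum.inr (Sum.inr (Sum.inr (Sum.inl (⟨j, hj⟩, _)))))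
      · exact hz (Sum.inr (Sum.inr (Sum.inr (Sum.inr (⟨j, hj⟩, _)))))
      · exact hz (Sum.inr (Sum.inr (Sum.inr (Sum.inl (⟨j, hj⟩, _)))))
      · exact hz (Sum.inr (Sum.inr (Sum.inr (Sum.inr (⟨j, hj⟩, _)))))
    · exact hz (Sum.inl (⟨i', hi⟩, k, j))
  have hcard := card_le_of_algIndep g hg z hmem
  have hpos : 0 < Fintype.card I := Fintype.card_pos_iff.mpr ⟨i⟩
  have hsub : Fintype.card {j : I // j ≠ i} = Fintype.card I - 1 := by
    simp
  simp only [Θ, Gx, Fintype.card_sum, Fintype.card_prod, Fintype.card_fun, hsub,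
    Fintype.card_coe] at hcard
  obtain ⟨m, hm⟩ : ∃ m, Fintype.card I = m + 1 := ⟨Fintype.card I - 1, by omega⟩
  rw [hm] at hcard ⊢
  simp only [Nat.add_sub_cancel] at hcard ⊢
  nlinarith [hcard]

end

end Pool.Agent.Lib.MP_9b38bc_ag
end

section

set_option autoImplicit false

namespace Pool.Agent.Lib.MP_9b38bc_ag

section Ext
variable {I N : Type} [Fintype I] [DecidableEq I] [Fintype N] [DecidableEq N]

/-- the coefficients of the extension with vanishing line sums -/
def cc : Option N → N → ℂ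
  | some x, y => if x = y then 1 else 0
  | none, _ => -1

omit [Fintype I] [DecidableEq I] in
theorem sum_cc (y : N) : ∑ t, cc t y = 0 := by
  rw [Fintype.sum_option]
  simp [cc]

/-- extension of a function on `I → N` to `I → Option N` with vanishing line sums -/
def ext (g : (I → N) → ℂ) (j : I → Option N) : ℂ :=
  ∑ j', g j' * ∏ a, cc (j a) (j' a)

theorem ext_some (g : (I → N) → ℂ) (j : I → N) : ext g (fun a => some (j a)) = g j := by
  unfold ext
  rw [Finset.sum_eq_single j]
  · simp [cc]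
  · intro j' _ hj
    have : ∃ a, j a ≠ j' a := by
      by_contra hcon
      push Not at hcon
      exact hj (funext hcon).symm
    obtain ⟨a, ha⟩ := this
    rw [Finset.prod_eq_zero (Finset.mem_univ a), mul_zero]
    simp [cc, ha]
  · simp

theorem ext_line (g : (I → N) → ℂ) (i : I) (φ : (I → Option N) → ℂ)
    (hφ : ∀ j t, φ (Function.update j i t) = φ j) :
    ∑ j, ext g j * φ j = 0 := by
  unfold ext
  simp only [Finset.sum_mul]
  rw [Finset.sum_comm]
  refine Finset.sum_eq_zero fun j' _ => ?_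
  rw [← Equiv.sum_comp (Equiv.funSplitAt i (Option N)).symm, Fintype.sum_prod_type,
    Finset.sum_comm]
  refine Finset.sum_eq_zero fun ρ _ => ?_
  have h1 : ∀ t : Option N, g j' * (∏ a, cc ((Equiv.funSplitAt i (Option N)).symm (t, ρ) a) (j' a)) *
      φ ((Equiv.funSplitAt i (Option N)).symm (t, ρ)) =
      (cc t (j' i)) * (g j' * (∏ a : {a // a ≠ i}, cc (ρ a) (j' a)) *
      φ ((Equiv.funSplitAt i (Option N)).symm (none, ρ))) := by
    intro t
    have e1 : (Equiv.funSplitAt i (Option N)).symm (t, ρ) =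
        Function.update ((Equiv.funSplitAt i (Option N)).symm (none, ρ)) i t := by
      funext a
      by_cases ha : a = i
      · subst ha; simp [Equiv.funSplitAt, Equiv.piSplitAt]
      · simp [Equiv.funSplitAt, Equiv.piSplitAt, ha]
    have e2 : φ ((Equiv.funSplitAt i (Option N)).symm (t, ρ)) =
        φ ((Equiv.funSplitAt i (Option N)).symm (none, ρ)) := by
      rw [e1, hφ]
    rw [e2, Fintype.prod_eq_mul_prod_subtype_ne _ i]
    have e3 : (Equiv.funSplitAt i (Option N)).symm (t, ρ) i = t := by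
      simp [Equiv.funSplitAt, Equiv.piSplitAt]
    have e4 : ∀ a : {a // a ≠ i}, (Equiv.funSplitAt i (Option N)).symm (t, ρ) a = ρ a := by
      intro a
      simp [Equiv.funSplitAt, Equiv.piSplitAt, a.2]
    rw [e3]
    simp only [e4]
    ring
  simp only [h1]
  rw [← Finset.sum_mul, sum_cc, zero_mul]

/-- extension by zero of the `u`-variables of block `i` -/
def uh {N : Type} [Fintype N] [DecidableEq N] (i : I) (u : Ux I N i → ℂ) (j : I → Option N) : ℂ :=
  ∑ α, if (∀ k : {k : I // k ≠ i}, j k = some (α k)) then u α else 0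

/-- extension by zero of the `v`-variables of block `i` -/
def vh {N : Type} [Fintype N] [DecidableEq N] (i : I) (v : N → ℂ) (j : I → Option N) : ℂ :=
  ∑ β, if j i = some β then v β else 0

theorem uh_update (i : I) (u : Ux I N i → ℂ) (j : I → Option N) (t : Option N) :
    uh i u (Function.update j i t) = uh i u j := by
  unfold uh
  refine Finset.sum_congr rfl fun α _ => ?_
  have : (∀ k : {k : I // k ≠ i}, Function.update j i t k = some (α k)) ↔
      (∀ k : {k : I // k ≠ i}, j k = some (α k)) := by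
    refine forall_congr' fun k => ?_
    rw [Function.update_of_ne k.2]
  simp only [this]

theorem vh_update (i i' : I) (hi : i' ≠ i) (v : N → ℂ) (j : I → Option N) (t : Option N) :
    vh i' v (Function.update j i t) = vh i' v j := by
  unfold vh
  simp only [Function.update_of_ne hi]

theorem ext_ne (g : (I → N) → ℂ) (i i' : I) (hi : i' ≠ i) (u : Ux I N i → ℂ) (v : N → ℂ) :
    ∑ j, ext g j * (uh i u j * vh i' v j) = 0 := by
  apply ext_line g i
  intro j t
  rw [uh_update, vh_update i i' hi]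

theorem ext_eq (g : (I → N) → ℂ) (i : I) (u : Ux I N i → ℂ) (v : N → ℂ) :
    ∑ j, ext g j * (uh i u j * vh i v j) =
      ∑ α, ∑ β, g ((Equiv.funSplitAt i N).symm (β, α)) * u α * v β := by
  have h1 : ∀ j : I → Option N, uh i u j * vh i v j =
      ∑ α, ∑ β, if j = (fun a => some ((Equiv.funSplitAt i N).symm (β, α) a)) then u α * v β
        else 0 := by
    intro j
    unfold uh vh
    rw [Finset.sum_mul]
    refine Finset.sum_congr rfl fun α _ => ?_
    rw [Finset.mul_sum]
    refine Finset.sum_congr rfl fun β _ => ?_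
    have hiff : j = (fun a => some ((Equiv.funSplitAt i N).symm (β, α) a)) ↔
        ((∀ k : {k : I // k ≠ i}, j k = some (α k)) ∧ j i = some β) := by
      constructor
      · intro h
        rw [h]
        constructor
        · intro k
          simp [Equiv.funSplitAt, Equiv.piSplitAt, k.2]
        · simp [Equiv.funSplitAt, Equiv.piSplitAt]
      · rintro ⟨h1, h2⟩
        funext a
        by_cases ha : a = i
        · subst ha
          rw [h2]; simp [Equiv.funSplitAt, Equiv.piSplitAt]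
        · rw [h1 ⟨a, ha⟩]; simp [Equiv.funSplitAt, Equiv.piSplitAt, ha]
    by_cases ha : ∀ k : {k : I // k ≠ i}, j k = some (α k)
    · by_cases hb : j i = some β
      · rw [if_pos ha, if_pos hb, if_pos (hiff.mpr ⟨ha, hb⟩)]
      · rw [if_neg hb, if_neg (fun h => hb (hiff.mp h).2), mul_zero]
    · rw [if_neg ha, if_neg (fun h => ha (hiff.mp h).1), zero_mul]
  simp only [h1, Finset.mul_sum]
  rw [Finset.sum_comm]
  refine Finset.sum_congr rfl fun α _ => ?_
  rw [Finset.sum_comm]
  refine Finset.sum_congr rfl fun β _ => ?_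
  rw [Finset.sum_eq_single (fun a => some ((Equiv.funSplitAt i N).symm (β, α) a))]
  · rw [if_pos rfl, ext_some]; ring
  · intro j _ hj
    rw [if_neg hj, mul_zero]
  · simp

end Ext

section Cubes

theorem cube3 : ∃ p q : Fin 3 → ℂ, ∀ z l : ℂ, z * l ^ 2 = ∑ r, (p r * z + q r * l) ^ 3 := by
  obtain ⟨c, hc⟩ := IsAlgClosed.exists_pow_nat_eq (1 / 6 : ℂ) (n := 3) (by norm_num)
  obtain ⟨e, he⟩ := IsAlgClosed.exists_pow_nat_eq (-2 : ℂ) (n := 3) (by norm_num)
  refine ⟨![c, c, c * e], ![c, -c, 0], fun z l => ?_⟩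
  rw [Fin.sum_univ_three]
  simp only [Matrix.cons_val_zero, Matrix.cons_val_one, Matrix.cons_val]
  linear_combination (-(6 * z * l ^ 2) - 2 * z ^ 3 - e ^ 3 * z ^ 3) * hc - (1 / 6) * z ^ 3 * he

theorem cube4 : ∃ p q s : Fin 4 → ℂ, ∀ a b c : ℂ,
    a * b * c = ∑ r, (p r * a + q r * b + s r * c) ^ 3 := by
  obtain ⟨e, he⟩ := IsAlgClosed.exists_pow_nat_eq (1 / 24 : ℂ) (n := 3) (by norm_num)
  refine ⟨![e, -e, -e, e], ![e, -e, e, -e], ![e, e, -e, -e], fun a b c => ?_⟩
  rw [Fin.sum_univ_four]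
  simp only [Matrix.cons_val_zero, Matrix.cons_val_one, Matrix.cons_val]
  linear_combination (-24 * a * b * c) * he

end Cubes

theorem bil_symM {U V A P : Type} [Fintype U] [Fintype V] [Fintype A] [Fintype P]
    (g : U → V → ℂ) (x : Xv U V A P → ℂ) :
    bil (symM g) x x = ∑ α, ∑ β, g α β * x (Sum.inl (Sum.inl α)) * x (Sum.inr (Sum.inl β)) := by
  unfold bil
  simp only [Fintype.sum_sum_type, symM, zero_mul, Finset.sum_const_zero, add_zero, zero_add]
  rw [Finset.sum_comm (s := (Finset.univ : Finset V))]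
  rw [← Finset.sum_add_distrib]
  refine Finset.sum_congr rfl fun α _ => ?_
  rw [← Finset.sum_add_distrib]
  refine Finset.sum_congr rfl fun β _ => ?_
  ring

end Pool.Agent.Lib.MP_9b38bc_ag
end

section

set_option autoImplicit false

namespace Pool.Agent.Lib.MP_9b38bc_ag

section
variable {I N A B : Type} [Fintype I] [DecidableEq I] [Fintype N] [DecidableEq N]
  [Fintype A] [Fintype B]

theorem bil_sum_sq {X τ : Type} [Fintype X] [Fintype τ] (l : τ → X → ℂ) (c : τ → ℂ) (x : X → ℂ) :
    bil (∑ t, c t • sq (l t)) x x = ∑ t, c t * (lin (l t) x) ^ 2 := by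
  have h1 : ∀ t, c t * (lin (l t) x) ^ 2 = ∑ s, ∑ s', c t * (l t s * l t s') * x s * x s' := by
    intro t
    rw [pow_two]
    unfold lin
    rw [Finset.sum_mul_sum, Finset.mul_sum]
    refine Finset.sum_congr rfl fun s _ => ?_
    rw [Finset.mul_sum]
    refine Finset.sum_congr rfl fun s' _ => ?_
    ring
  simp only [h1]
  unfold bil
  rw [Finset.sum_comm (s := (Finset.univ : Finset τ))]
  refine Finset.sum_congr rfl fun s _ => ?_
  rw [Finset.sum_comm (s := (Finset.univ : Finset τ))]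
  refine Finset.sum_congr rfl fun s' _ => ?_
  simp only [Finset.sum_apply, Pi.smul_apply, smul_eq_mul, sq, Finset.sum_mul]

/-- the abbreviation for the quadratic variables of block `i` -/
abbrev Xi (I N A B : Type) (i : I) : Type := Xv (Ux I N i) N A (I × B)

theorem tensor_identity (g : Gx I N A B → ℂ) (w : I → A × B → ℂ) (x : ∀ i, Xi I N A B i → ℂ) :
    ∑ j : I → Option N, (∑ i, uh i (fun α => x i (Sum.inl (Sum.inl α))) j) *
      (∑ i, vh i (fun β => x i (Sum.inr (Sum.inl β))) j) *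
      (∑ i, ∑ k, ext (fun j' => g (i, k, j')) j * w i k) =
    ∑ i, ∑ i', ∑ k, w i' k * bil (symM (gm g i i' k)) (x i) (x i) := by
  have h1 : ∀ j : I → Option N, (∑ i, uh i (fun α => x i (Sum.inl (Sum.inl α))) j) *
      (∑ i, vh i (fun β => x i (Sum.inr (Sum.inl β))) j) *
      (∑ i, ∑ k, ext (fun j' => g (i, k, j')) j * w i k) =
      ∑ i', ∑ k, ∑ i, ∑ i'', w i' k * (ext (fun j' => g (i', k, j')) j *
        (uh i (fun α => x i (Sum.inl (Sum.inl α))) j *
          vh i'' (fun β => x i'' (Sum.inr (Sum.inl β))) j)) := by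
    intro j
    rw [Finset.mul_sum]
    refine Finset.sum_congr rfl fun i' _ => ?_
    rw [Finset.mul_sum]
    refine Finset.sum_congr rfl fun k _ => ?_
    rw [Finset.sum_mul_sum, Finset.sum_mul]
    refine Finset.sum_congr rfl fun i _ => ?_
    rw [Finset.sum_mul]
    refine Finset.sum_congr rfl fun i'' _ => ?_
    ring
  simp only [h1]
  rw [Finset.sum_comm]
  have h2 : ∀ i', ∑ j : I → Option N, ∑ k, ∑ i, ∑ i'', w i' k * (ext (fun j' => g (i', k, j')) j *
        (uh i (fun α => x i (Sum.inl (Sum.inl α))) j *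
          vh i'' (fun β => x i'' (Sum.inr (Sum.inl β))) j)) =
        ∑ i, ∑ k, w i' k * bil (symM (gm g i i' k)) (x i) (x i) := by
    intro i'
    rw [Finset.sum_comm]
    rw [Finset.sum_comm (s := (Finset.univ : Finset I))]
    refine Finset.sum_congr rfl fun k _ => ?_
    rw [Finset.sum_comm]
    refine Finset.sum_congr rfl fun i _ => ?_
    rw [Finset.sum_comm]
    rw [Finset.sum_eq_single i]
    · rw [← Finset.mul_sum, ext_eq, bil_symM]
      rfl
    · intro i'' _ hi
      rw [← Finset.mul_sum, ext_ne _ _ _ hi, mul_zero]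
    · simp
  simp only [h2]
  rw [Finset.sum_comm]

theorem upper_identity (g : Gx I N A B → ℂ) {τ : I → Type} [∀ i, Fintype (τ i)]
    (l : ∀ i, τ i → Xi I N A B i → ℂ) (C : ∀ i, A → I × B → τ i → ℂ)
    (hC : ∀ i a p, symM (Gm g i a p) = ∑ t, C i a p t • sq (l i t))
    (y : ∀ i, τ i → ℂ) (w : I → A × B → ℂ) (x : ∀ i, Xi I N A B i → ℂ) :
    ∑ i, cubic (l i) (fun k => symM (gm g i i k)) (y i) (w i) (x i) =
      ∑ i, ∑ t, (y i t - ∑ a, ∑ p : I × B, C i a p t * w p.1 (a, p.2)) * (lin (l i t) (x i)) ^ 2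
      + ∑ j : I → Option N, (∑ i, uh i (fun α => x i (Sum.inl (Sum.inl α))) j) *
      (∑ i, vh i (fun β => x i (Sum.inr (Sum.inl β))) j) *
      (∑ i, ∑ k, ext (fun j' => g (i, k, j')) j * w i k) := by
  rw [tensor_identity, ← Finset.sum_add_distrib]
  refine Finset.sum_congr rfl fun i _ => ?_
  unfold cubic
  have h1 : ∑ t, (y i t - ∑ a, ∑ p : I × B, C i a p t * w p.1 (a, p.2)) * (lin (l i t) (x i)) ^ 2
      = ∑ t, y i t * (lin (l i t) (x i)) ^ 2 -
        ∑ a, ∑ p : I × B, w p.1 (a, p.2) * bil (symM (Gm g i a p)) (x i) (x i) := by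
    simp only [hC, bil_sum_sq]
    simp only [sub_mul, Finset.sum_sub_distrib, Finset.sum_mul, Finset.mul_sum]
    congr 1
    rw [Finset.sum_comm]
    refine Finset.sum_congr rfl fun a _ => ?_
    rw [Finset.sum_comm]
    refine Finset.sum_congr rfl fun p _ => ?_
    refine Finset.sum_congr rfl fun t _ => ?_
    ring
  rw [h1]
  have h2 : ∑ a, ∑ p : I × B, w p.1 (a, p.2) * bil (symM (Gm g i a p)) (x i) (x i) =
      ∑ i', ∑ k : A × B, w i' k * (if i' = i then 0 else bil (symM (gm g i i' k)) (x i) (x i)) := by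
    simp only [Fintype.sum_prod_type]
    rw [Finset.sum_comm]
    refine Finset.sum_congr rfl fun i' _ => ?_
    refine Finset.sum_congr rfl fun a _ => ?_
    refine Finset.sum_congr rfl fun b _ => ?_
    by_cases h : i' = i
    · simp only [h, if_true, Gm]
      rw [bil_symM]
      simp
    · simp only [h, if_false, Gm]
  rw [h2]
  have h3 : ∑ i', ∑ k, w i' k * bil (symM (gm g i i' k)) (x i) (x i) -
      ∑ i', ∑ k : A × B, w i' k * (if i' = i then 0 else bil (symM (gm g i i' k)) (x i) (x i)) =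
      ∑ k, w i k * bil (symM (gm g i i k)) (x i) (x i) := by
    rw [← Finset.sum_sub_distrib, Finset.sum_eq_single i]
    · simp
    · intro i' _ hi
      simp [hi]
    · simp
  rw [← h3]
  ring

end

end Pool.Agent.Lib.MP_9b38bc_ag
end

section

set_option autoImplicit false

namespace Pool.Agent.Lib.MP_9b38bc_ag

/-- a function given by a linear form -/
def IsLin {σ : Type} [Fintype σ] (f : (σ → ℂ) → ℂ) : Prop :=
  ∃ L : σ → ℂ, ∀ z, f z = ∑ v, L v * z v

section
variable {σ : Type} [Fintype σ]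

theorem IsLin.zero : IsLin (fun _ : σ → ℂ => (0 : ℂ)) := ⟨0, fun z => by simp⟩

theorem IsLin.add {f f' : (σ → ℂ) → ℂ} (h : IsLin f) (h' : IsLin f') :
    IsLin (fun z => f z + f' z) := by
  obtain ⟨L, hL⟩ := h
  obtain ⟨L', hL'⟩ := h'
  refine ⟨L + L', fun z => ?_⟩
  simp only [hL, hL', ← Finset.sum_add_distrib, Pi.add_apply, add_mul]

theorem IsLin.smul {f : (σ → ℂ) → ℂ} (c : ℂ) (h : IsLin f) : IsLin (fun z => c * f z) := by
  obtain ⟨L, hL⟩ := h
  refine ⟨c • L, fun z => ?_⟩
  simp only [hL, Finset.mul_sum, Pi.smul_apply, smul_eq_mul, mul_assoc]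

theorem IsLin.sum {ι : Type} (S : Finset ι) {f : ι → (σ → ℂ) → ℂ} (h : ∀ i, IsLin (f i)) :
    IsLin (fun z => ∑ i ∈ S, f i z) := by
  choose L hL using h
  refine ⟨∑ i ∈ S, L i, fun z => ?_⟩
  simp only [hL, Finset.sum_apply, Finset.sum_mul]
  rw [Finset.sum_comm]

theorem IsLin.coord (v : σ) : IsLin (fun z : σ → ℂ => z v) := by
  classical
  refine ⟨Pi.single v 1, fun z => ?_⟩
  rw [Finset.sum_eq_single v]
  · simp
  · intro b _ hb
    simp [hb]
  · simp

theorem IsLin.ite {f : (σ → ℂ) → ℂ} (p : Prop) [Decidable p] (h : IsLin f) :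
    IsLin (fun z => if p then f z else 0) := by
  by_cases hp : p
  · simpa [hp] using h
  · simpa [hp] using IsLin.zero

end

section
variable {I N A B : Type} [Fintype I] [DecidableEq I] [Fintype N] [DecidableEq N]
  [Fintype A] [Fintype B]

/-- all variables of block `i` -/
abbrev Vi (N A B : Type) {I : Type} (τ : I → Type) (i : I) : Type :=
  τ i ⊕ ((A × B) ⊕ Xi I N A B i)

theorem upper_bound (g : Gx I N A B → ℂ) {τ : I → Type} [∀ i, Fintype (τ i)]
    (l : ∀ i, τ i → Xi I N A B i → ℂ) (C : ∀ i, A → I × B → τ i → ℂ)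
    (hC : ∀ i a p, symM (Gm g i a p) = ∑ t, C i a p t • sq (l i t)) :
    ∃ L : ((Σ i, τ i × Fin 3) ⊕ ((I → Option N) × Fin 4)) → (Σ i, Vi N A B τ i) → ℂ,
      ∀ z : (Σ i, Vi N A B τ i) → ℂ,
      ∑ i, cubic (l i) (fun k => symM (gm g i i k)) (fun t => z ⟨i, Sum.inl t⟩)
        (fun k => z ⟨i, Sum.inr (Sum.inl k)⟩) (fun s => z ⟨i, Sum.inr (Sum.inr s)⟩) =
      ∑ k, (∑ v, L k v * z v) ^ 3 := by
  obtain ⟨p3, q3, h3⟩ := cube3
  obtain ⟨p4, q4, s4, h4⟩ := cube4
  let y : ((Σ i, Vi N A B τ i) → ℂ) → ∀ i, τ i → ℂ := fun z i t => z ⟨i, Sum.inl t⟩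
  let w : ((Σ i, Vi N A B τ i) → ℂ) → I → A × B → ℂ := fun z i k => z ⟨i, Sum.inr (Sum.inl k)⟩
  let x : ((Σ i, Vi N A B τ i) → ℂ) → ∀ i, Xi I N A B i → ℂ :=
    fun z i s => z ⟨i, Sum.inr (Sum.inr s)⟩
  have hy : ∀ i t, IsLin (fun z => y z i t) := fun i t => IsLin.coord _
  have hw : ∀ i k, IsLin (fun z => w z i k) := fun i t => IsLin.coord _
  have hx : ∀ i s, IsLin (fun z => x z i s) := fun i t => IsLin.coord _
  have h1 : ∀ i t, IsLin (fun z => y z i t - ∑ a, ∑ p : I × B, C i a p t * w z p.1 (a, p.2)) := by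
    intro i t
    have := (hy i t).add (((IsLin.sum Finset.univ fun a => IsLin.sum Finset.univ fun p : I × B =>
      (hw p.1 (a, p.2)).smul (C i a p t))).smul (-1))
    simpa [sub_eq_add_neg] using this
  have h2 : ∀ i t, IsLin (fun z => lin (l i t) (x z i)) := by
    intro i t
    unfold lin
    exact IsLin.sum _ fun s => (hx i s).smul _
  have ha : ∀ j : I → Option N, IsLin (fun z => ∑ i, uh i (fun α => x z i (Sum.inl (Sum.inl α))) j) := by
    intro j
    refine IsLin.sum _ fun i => ?_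
    unfold uh
    exact IsLin.sum _ fun α => IsLin.ite _ (hx i _)
  have hb : ∀ j : I → Option N, IsLin (fun z => ∑ i, vh i (fun β => x z i (Sum.inr (Sum.inl β))) j) := by
    intro j
    refine IsLin.sum _ fun i => ?_
    unfold vh
    exact IsLin.sum _ fun α => IsLin.ite _ (hx i _)
  have hc : ∀ j : I → Option N,
      IsLin (fun z => ∑ i, ∑ k, ext (fun j' => g (i, k, j')) j * w z i k) := by
    intro j
    exact IsLin.sum _ fun i => IsLin.sum _ fun k => (hw i k).smul _
  choose L1 hL1 using fun (s : Σ i, τ i × Fin 3) =>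
    ((h1 s.1 s.2.1).smul (p3 s.2.2)).add ((h2 s.1 s.2.1).smul (q3 s.2.2))
  choose L2 hL2 using fun (s : (I → Option N) × Fin 4) =>
    (((ha s.1).smul (p4 s.2)).add ((hb s.1).smul (q4 s.2))).add ((hc s.1).smul (s4 s.2))
  refine ⟨Sum.elim L1 L2, fun z => ?_⟩
  have := upper_identity g l C hC (y z) (w z) (x z)
  rw [show (∑ i, cubic (l i) (fun k => symM (gm g i i k)) (fun t => z ⟨i, Sum.inl t⟩)
        (fun k => z ⟨i, Sum.inr (Sum.inl k)⟩) (fun s => z ⟨i, Sum.inr (Sum.inr s)⟩)) =
        ∑ i, cubic (l i) (fun k => symM (gm g i i k)) (y z i) (w z i) (x z i) from rfl, this]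
  rw [Fintype.sum_sum_type]
  simp only [Sum.elim_inl, Sum.elim_inr, ← hL1, ← hL2]
  rw [Fintype.sum_sigma, Fintype.sum_prod_type]
  refine congrArg₂ (· + ·) (Finset.sum_congr rfl fun i _ => ?_) (Finset.sum_congr rfl fun j _ => ?_)
  · rw [Fintype.sum_prod_type]
    refine Finset.sum_congr rfl fun t _ => ?_
    rw [h3]
  · rw [h4]

theorem lower_bound (g : Gx I N A B → ℂ) (hg : AlgebraicIndependent ℚ g) (i : I)
    {τ : I → Type} [∀ i, Fintype (τ i)]
    (l : τ i → Xi I N A B i → ℂ) (hl : LinearIndependent ℂ (fun t => sq (l t)))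
    (hl2 : ∀ t, PiM (Gm g i) (sq (l t)) ∈ spanG (Gm g i))
    {J : Type} [Fintype J] (L : J → Vi N A B τ i → ℂ)
    (H : ∀ z : Vi N A B τ i → ℂ, cubic l (fun k => symM (gm g i i k)) (fun t => z (Sum.inl t))
        (fun k => z (Sum.inr (Sum.inl k))) (fun s => z (Sum.inr (Sum.inr s))) =
      ∑ j, (∑ v, L j v * z v) ^ 3) :
    ∃ ρ : ℕ, ρ + 3 * Fintype.card (τ i) ≤ Fintype.card J ∧
      (Fintype.card A * Fintype.card B) * Fintype.card N ^ Fintype.card I ≤
      (Fintype.card A * Fintype.card B) * (Fintype.card A * (Fintype.card I * Fintype.card B))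
      + (Fintype.card A * Fintype.card B) * ρ
      + ρ * (Fintype.card N ^ (Fintype.card I - 1) + Fintype.card A)
      + ρ * (Fintype.card N + (Fintype.card I * Fintype.card B) * Fintype.card N) := by
  let toV : ((τ i → ℂ) × (A × B → ℂ) × (Xi I N A B i → ℂ)) → (Vi N A B τ i → ℂ) :=
    fun z => Sum.elim z.1 (Sum.elim z.2.1 z.2.2)
  let Λ : J → ((τ i → ℂ) × (A × B → ℂ) × (Xi I N A B i → ℂ)) →ₗ[ℂ] ℂ := fun j =>
    { toFun := fun z => ∑ v, L j v * toV z v
      map_add' := by
        intro z z'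
        rw [← Finset.sum_add_distrib]
        refine Finset.sum_congr rfl fun v _ => ?_
        rw [← mul_add]
        congr 1
        rcases v with v | v | v <;> simp [toV]
      map_smul' := by
        intro c z
        simp only [RingHom.id_apply, smul_eq_mul]
        rw [Finset.mul_sum]
        refine Finset.sum_congr rfl fun v _ => ?_
        rcases v with v | v | v <;> simp [toV] <;> ring }
  have H' : ∀ y w x, cubic l (fun k => symM (gm g i i k)) y w x = ∑ j, (Λ j (y, w, x)) ^ 3 := by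
    intro y w x
    have := H (toV (y, w, x))
    exact this
  obtain ⟨rest, a, b, c, d, hcard, hk⟩ := block_lower (Gm g i) (gm g i i) l hl hl2 Λ H'
  exact ⟨rest.card, hcard, count g hg i rest a b c d hk⟩

end

section Poly
open MvPolynomial

variable {τ κ ξ : Type} [Fintype τ] [Fintype κ] [Fintype ξ]

/-- the polynomial version of `cubic` -/
noncomputable def cubicPoly (l : τ → ξ → ℂ) (B : κ → ξ → ξ → ℂ) :
    MvPolynomial (τ ⊕ (κ ⊕ ξ)) ℂ :=
  ∑ t, X (Sum.inl t) * (∑ s, C (l t s) * X (Sum.inr (Sum.inr s))) ^ 2 +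
    ∑ k, X (Sum.inr (Sum.inl k)) * ∑ s, ∑ s', C (B k s s') *
      X (Sum.inr (Sum.inr s)) * X (Sum.inr (Sum.inr s'))

theorem eval_cubicPoly (l : τ → ξ → ℂ) (B : κ → ξ → ξ → ℂ) (z : τ ⊕ (κ ⊕ ξ) → ℂ) :
    eval z (cubicPoly l B) = cubic l B (fun t => z (Sum.inl t))
      (fun k => z (Sum.inr (Sum.inl k))) (fun s => z (Sum.inr (Sum.inr s))) := by
  simp [cubicPoly, cubic, lin, bil]

theorem homog_cubicPoly (l : τ → ξ → ℂ) (B : κ → ξ → ξ → ℂ) :
    (cubicPoly l B).IsHomogeneous 3 := by
  unfold cubicPoly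
  refine IsHomogeneous.add (IsHomogeneous.sum _ _ _ fun t _ => ?_)
    (IsHomogeneous.sum _ _ _ fun k _ => ?_)
  · have h1 : (∑ s, C (l t s) * X (Sum.inr (Sum.inr s)) :
        MvPolynomial (τ ⊕ (κ ⊕ ξ)) ℂ).IsHomogeneous 1 := by
      refine IsHomogeneous.sum _ _ _ fun s _ => ?_
      simpa using (isHomogeneous_C _ _).mul (isHomogeneous_X ℂ _)
    have := (isHomogeneous_X ℂ (Sum.inl t : τ ⊕ (κ ⊕ ξ))).mul (h1.pow 2)
    simpa using this
  · have h1 : (∑ s, ∑ s', C (B k s s') *
      X (Sum.inr (Sum.inr s)) * X (Sum.inr (Sum.inr s')) :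
        MvPolynomial (τ ⊕ (κ ⊕ ξ)) ℂ).IsHomogeneous 2 := by
      refine IsHomogeneous.sum _ _ _ fun s _ => IsHomogeneous.sum _ _ _ fun s' _ => ?_
      simpa using ((isHomogeneous_C _ _).mul (isHomogeneous_X ℂ _)).mul (isHomogeneous_X ℂ _)
    have := (isHomogeneous_X ℂ (Sum.inr (Sum.inl k) : τ ⊕ (κ ⊕ ξ))).mul h1
    simpa using this

end Poly

open MvPolynomial in
/-- The counterexample: ten cubic forms in disjoint variables whose sum is a sum of fewer cubes
than the summands need separately. -/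
theorem core : ∃ (V : Fin 10 → Type) (_ : ∀ i, Fintype (V i)) (Q : ∀ i, MvPolynomial (V i) ℂ)
    (R : ℕ) (r : Fin 10 → ℕ), (∀ i, (Q i).IsHomogeneous 3) ∧ R < ∑ i, r i ∧
    (∀ (i : Fin 10) (J : Type) (_ : Fintype J) (L : J → V i → ℂ),
      (∀ z : V i → ℂ, eval z (Q i) = ∑ j, (∑ v, L j v * z v) ^ 3) → r i ≤ Fintype.card J) ∧
    (∃ L : Fin R → (Σ i, V i) → ℂ, ∀ z : (Σ i, V i) → ℂ,
      ∑ i, eval (fun v => z ⟨i, v⟩) (Q i) = ∑ k, (∑ v, L k v * z v) ^ 3) := by
  classical
  obtain ⟨g, hg⟩ := exists_algIndep (Gx (Fin 10) (Fin 1000) (Fin (1000 ^ 4)) (Fin (1000 ^ 5)))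
  choose τ hτ l hl1 hl2 hl3 using fun i => block_exists (Gm g i)
  choose C hC using hl3
  refine ⟨fun i => Vi (Fin 1000) (Fin (1000 ^ 4)) (Fin (1000 ^ 5)) τ i, fun i => inferInstance,
    fun i => cubicPoly (l i) (fun k => symM (gm g i i k)),
    (∑ i, Fintype.card (τ i) * 3) + 1001 ^ 10 * 4,
    fun i => 49 * 10 ^ 28 + 3 * Fintype.card (τ i), ?_, ?_, ?_, ?_⟩
  · intro i
    exact homog_cubicPoly _ _
  · rw [Finset.sum_add_distrib]
    simp only [Finset.sum_const, Finset.card_univ, Fintype.card_fin, smul_eq_mul]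
    have : ∑ i, Fintype.card (τ i) * 3 = ∑ i, 3 * Fintype.card (τ i) :=
      Finset.sum_congr rfl fun i _ => mul_comm _ _
    rw [this]
    norm_num
    omega
  · intro i J _ L H
    simp only [eval_cubicPoly] at H
    obtain ⟨ρ, h1, h2⟩ := lower_bound g hg i (l i) (hl1 i) (hl2 i) L H
    simp only [Fintype.card_fin] at h2
    have h3 : 49 * 10 ^ 28 ≤ ρ := by
      by_contra hcon
      push Not at hcon
      norm_num at h2 hcon
      omega
    show 49 * 10 ^ 28 + 3 * Fintype.card (τ i) ≤ Fintype.card J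
    omega
  · obtain ⟨L, hL⟩ := upper_bound g l C hC
    have hcard : Fintype.card ((Σ i, τ i × Fin 3) ⊕ ((Fin 10 → Option (Fin 1000)) × Fin 4)) =
      (∑ i, Fintype.card (τ i) * 3) + 1001 ^ 10 * 4 := by
      simp [Fintype.card_sigma]
    let e := Fintype.equivFinOfCardEq hcard
    refine ⟨fun k => L (e.symm k), fun z => ?_⟩
    simp only [eval_cubicPoly]
    rw [Equiv.sum_comp e.symm (fun k => (∑ v, L k v * z v) ^ 3)]
    exact hL z

end Pool.Agent.Lib.MP_9b38bc_ag
end
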